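import Mathlib
import Pool.Agent.H759R2.Kad.Props

/-!
Characters of `(ZMod R)^ι`: orthogonality, and the Fourier expansion of the recursively defined
polynomials `wv` (task 11).
-/

open scoped ComplexOrder InnerProductSpace ComplexConjugate
open Finset

noncomputable section

namespace H759R2.Kad

universe u v

/-- the homomorphism `ω ↦ ∑ h c * ω c` -/
def pairHom {ι : Type} [Fintype ι] {R : ℕ} (h : ι → ZMod R) : (ι → ZMod R) →+ ZMod R where
  toFun ω := ∑ c, h c * ω c
  map_zero' := by simp
  map_add' x y := by simp [mul_add, Finset.sum_add_distrib]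

/-- the character with frequency `h` -/
def psi {ι : Type} [Fintype ι] {R : ℕ} [NeZero R] (h : ι → ZMod R) : AddChar (ι → ZMod R) ℂ :=
  ZMod.stdAddChar.compAddMonoidHom (pairHom h)

theorem psi_apply {ι : Type} [Fintype ι] {R : ℕ} [NeZero R] (h ω : ι → ZMod R) :
    psi h ω = Chi h ω := by
  simp [psi, Chi, pairHom]

theorem Chi_add {ι : Type} [Fintype ι] {R : ℕ} [NeZero R] (f g ω : ι → ZMod R) :
    Chi (f + g) ω = Chi f ω * Chi g ω := by
  unfold Chi
  rw [← AddChar.map_add_eq_mul]
  congr 1
  rw [← Finset.sum_add_distrib]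
  refine Finset.sum_congr rfl fun c _ => ?_
  rw [Pi.add_apply, add_mul]

theorem Chi_single {ι : Type} [Fintype ι] [DecidableEq ι] {R : ℕ} [NeZero R] (c : ι)
    (ω : ι → ZMod R) : Chi (Pi.single c 1) ω = chi ω c := by
  unfold Chi chi
  congr 1
  rw [Finset.sum_eq_single c]
  · simp
  · intro b _ hb
    simp [Pi.single_apply, hb]
  · simp

theorem Chi_conj {ι : Type} [Fintype ι] {R : ℕ} [NeZero R] (f ω : ι → ZMod R) :
    conj (Chi f ω) = Chi (-f) ω := by
  unfold Chi
  rw [← AddChar.map_neg_eq_conj]
  congr 1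
  rw [← Finset.sum_neg_distrib]
  refine Finset.sum_congr rfl fun c _ => ?_
  rw [Pi.neg_apply, neg_mul]

theorem psi_eq_zero {ι : Type} [Fintype ι] [DecidableEq ι] {R : ℕ} [NeZero R] (h : ι → ZMod R) :
    psi h = 0 ↔ h = 0 := by
  constructor
  · intro h0
    funext c
    have h1 : psi h (Pi.single c 1) = 1 := by
      rw [h0]
      rfl
    rw [psi_apply] at h1
    unfold Chi at h1
    have h2 : ∑ c', h c' * (Pi.single c 1 : ι → ZMod R) c' = h c := by
      rw [Finset.sum_eq_single c]
      · simp
      · intro b _ hb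
        simp [Pi.single_apply, hb]
      · simp
    rw [h2] at h1
    have h3 : ZMod.stdAddChar (h c) = ZMod.stdAddChar (0 : ZMod R) := by
      rw [h1, AddChar.map_zero_eq_one]
    exact ZMod.injective_stdAddChar h3
  · rintro rfl
    ext ω
    rw [psi_apply]
    simp [Chi]

theorem prove_orth : St_orth := by
  intro ι _ _ R _ f g
  have h1 : ∀ ω, conj (Chi f ω) * Chi g ω = psi (g - f) ω := by
    intro ω
    rw [Chi_conj, ← Chi_add, psi_apply]
    congr 1
    abel
  simp_rw [h1]
  rw [AddChar.sum_eq_ite]
  by_cases h : f = g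
  · subst h
    rw [if_pos, if_pos rfl]
    rw [psi_eq_zero, sub_self]
  · rw [if_neg, if_neg h]
    rw [psi_eq_zero]
    intro h'
    exact h (sub_eq_zero.1 h').symm

theorem expand_aux (ι : Type) [Fintype ι] [DecidableEq ι] (R : ℕ) [NeZero R]
    (W : Type u) [AddCommGroup W] [Module ℂ W] (P : ι → W →ₗ[ℂ] W) (V : W →ₗ[ℂ] W) (θ : W)
    (hP : ∀ c c', c ≠ c' → ∀ z, P c (P c' z) = 0) : ∀ k : ℕ, k + 1 < R →
    ∃ Y : (ι → ZMod R) → W, (∀ ω, wv P V θ ω k = ∑ f, Chi f ω • Y f) ∧
      (∀ f, Y f ≠ 0 → ∃ μ : ι → ℕ, ∑ c, μ c = k + 1 ∧ ∀ c, f c = (μ c : ZMod R)) ∧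
      (∀ f c, f c = 0 → P c (Y f) = 0) := by
  intro k
  induction k with
  | zero =>
    intro hR
    have : Fact (1 < R) := ⟨by omega⟩
    refine ⟨fun f => ∑ c, if f = Pi.single c 1 then P c θ else 0, ?_, ?_, ?_⟩
    · intro ω
      simp only [wv, Finset.smul_sum]
      rw [Finset.sum_comm]
      refine Finset.sum_congr rfl fun c _ => ?_
      rw [Finset.sum_eq_single (Pi.single c 1)]
      · rw [if_pos rfl, Chi_single]
      · intro f _ hf
        rw [if_neg hf, smul_zero]
      · simp
    · intro f hf
      obtain ⟨c, _, hc⟩ := Finset.exists_ne_zero_of_sum_ne_zero hf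
      have hc' : f = Pi.single c 1 := by
        by_contra h
        rw [if_neg h] at hc
        exact hc rfl
      refine ⟨Pi.single c 1, by simp, ?_⟩
      intro c'
      rw [hc']
      by_cases h : c' = c
      · subst h
        simp
      · simp [h]
    · intro f c hfc
      rw [map_sum]
      refine Finset.sum_eq_zero fun c' _ => ?_
      split_ifs with h
      · by_cases hcc : c = c'
        · subst hcc
          rw [h] at hfc
          simp at hfc
        · exact hP c c' hcc θ
      · exact map_zero _
  | succ k ih =>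
    intro hR
    obtain ⟨Y, hY1, hY2, hY3⟩ := ih (by omega)
    refine ⟨fun f => ∑ c, P c (V (Y (f - Pi.single c 1))), ?_, ?_, ?_⟩
    · intro ω
      have hw : wv P V θ ω (k + 1) = ∑ c, chi ω c • P c (V (wv P V θ ω k)) := rfl
      rw [hw, hY1 ω]
      simp only [Finset.smul_sum, map_sum, map_smul]
      conv_rhs => rw [Finset.sum_comm]
      refine Finset.sum_congr rfl fun c _ => ?_
      refine Fintype.sum_equiv (Equiv.addRight (Pi.single c 1 : ι → ZMod R)) _ _ fun f => ?_
      rw [Equiv.coe_addRight, add_sub_cancel_right, Chi_add, Chi_single, smul_smul, mul_comm]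
    · intro f hf
      obtain ⟨c, _, hc⟩ := Finset.exists_ne_zero_of_sum_ne_zero hf
      have hc' : Y (f - Pi.single c 1) ≠ 0 := by
        intro h
        rw [h, map_zero, map_zero] at hc
        exact hc rfl
      obtain ⟨μ, hμ1, hμ2⟩ := hY2 _ hc'
      refine ⟨μ + Pi.single c 1, ?_, ?_⟩
      · simp only [Pi.add_apply, Finset.sum_add_distrib, hμ1]
        simp
      · intro c'
        have h1 := hμ2 c'
        rw [Pi.sub_apply] at h1
        have h2 : f c' = (μ c' : ZMod R) + (Pi.single c 1 : ι → ZMod R) c' := by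
          rw [← h1]
          ring
        rw [h2, Pi.add_apply]
        by_cases h : c' = c
        · subst h
          simp
        · simp [h]
    · intro f c hfc
      rw [map_sum]
      refine Finset.sum_eq_zero fun c' _ => ?_
      by_cases hcc : c = c'
      · subst hcc
        by_cases h0 : Y (f - Pi.single c 1) = 0
        · rw [h0]
          simp
        · exfalso
          obtain ⟨μ, hμ1, hμ2⟩ := hY2 _ h0
          have h1 := hμ2 c
          rw [Pi.sub_apply, hfc, Pi.single_eq_same] at h1
          have h2 : ((μ c + 1 : ℕ) : ZMod R) = 0 := by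
            push_cast
            rw [← h1]
            ring
          rw [ZMod.natCast_eq_zero_iff] at h2
          have h3 : μ c ≤ k + 1 := by
            rw [← hμ1]
            exact Finset.single_le_sum (fun _ _ => Nat.zero_le _) (Finset.mem_univ c)
          have h4 := Nat.le_of_dvd (by omega) h2
          omega
      · exact hP c c' hcc _

theorem prove_expand : St_expand.{u} := by
  intro ι _ _ R _ W _ _ P V θ hP k hk
  obtain ⟨Y, h1, h2, h3⟩ := expand_aux ι R W P V θ hP k hk
  refine ⟨Y, h1, ?_, h3⟩
  intro f hf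
  obtain ⟨μ, hμ1, hμ2⟩ := h2 f hf
  rw [← hμ1]
  calc (univ.filter fun c => f c ≠ 0).card ≤ (univ.filter fun c => μ c ≠ 0).card := by
        apply Finset.card_le_card
        intro c hc
        simp only [Finset.mem_filter, Finset.mem_univ, true_and] at hc ⊢
        intro h0
        apply hc
        rw [hμ2 c, h0]
        simp
    _ = ∑ c ∈ univ.filter fun c => μ c ≠ 0, 1 := by simp
    _ ≤ ∑ c ∈ univ.filter fun c => μ c ≠ 0, μ c := by
        apply Finset.sum_le_sum
        intro c hc
        simp only [Finset.mem_filter, Finset.mem_univ, true_and] at hc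
        omega
    _ ≤ ∑ c, μ c := Finset.sum_le_univ_sum_of_nonneg (fun _ => Nat.zero_le _)

end H759R2.Kad
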